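import Pool.Agent.Lib.MP_9cc147_pr.Cx.D3

/-! Gaussian integrals over the range of an injective map, and the abstract duality formula. -/

open scoped Classical RealInnerProductSpace
open Finset MeasureTheory

noncomputable section
namespace Pool.Agent.Lib.MP_9cc147_pr.Cx.Du

variable {ι κ E : Type} [Fintype ι] [Fintype E]

theorem gauss (A : (ι → ℝ) →ₗ[ℝ] (E → ℝ)) (hA : Function.Injective A) :
    Integrable (fun φ : ι → ℝ => Real.exp (-(∑ e, A φ e ^ 2) / 2)) ∧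
    ∃ c : ℝ, 0 < c ∧ ∀ (ψ : ι → ℝ) (t : ℝ),
      ∫ φ : ι → ℝ, Complex.exp (-((∑ e, A φ e ^ 2 : ℝ) : ℂ) / 2 +
        Complex.I * t * (∑ e, A ψ e * A φ e : ℝ)) =
          (c * Real.exp (-t ^ 2 * (∑ e, A ψ e ^ 2) / 2) : ℝ) := by
  let A' : (ι → ℝ) →ₗ[ℝ] EuclideanSpace ℝ E :=
    (WithLp.linearEquiv 2 ℝ (E → ℝ)).symm.toLinearMap ∘ₗ A
  have hA' : Function.Injective A' := (WithLp.linearEquiv 2 ℝ (E → ℝ)).symm.injective.comp hA
  let W := LinearMap.range A'
  let T : (ι → ℝ) ≃L[ℝ] W := (LinearEquiv.ofInjective A' hA').toContinuousLinearEquiv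
  have hT : ∀ φ e, ((T φ : W) : EuclideanSpace ℝ E) e = A φ e := fun φ e => rfl
  have hin : ∀ ψ φ, ⟪T ψ, T φ⟫ = ∑ e, A ψ e * A φ e := by
    intro ψ φ
    rw [Submodule.coe_inner, PiLp.inner_apply]
    refine sum_congr rfl fun e _ => ?_
    rw [hT, hT]
    simp [mul_comm]
  have hn : ∀ φ, ‖T φ‖ ^ 2 = ∑ e, A φ e ^ 2 := by
    intro φ
    rw [← real_inner_self_eq_norm_sq, hin]
    simp only [sq]
  have hH : ((volume : Measure (ι → ℝ)).map T).IsAddHaarMeasure := T.isAddHaarMeasure_map _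
  have hm := Measure.isAddLeftInvariant_eq_smul ((volume : Measure (ι → ℝ)).map T)
    (volume : Measure W)
  have hk := Measure.addHaarScalarFactor_pos_of_isAddHaarMeasure
    ((volume : Measure (ι → ℝ)).map T) (volume : Measure W)
  set k := Measure.addHaarScalarFactor ((volume : Measure (ι → ℝ)).map T) (volume : Measure W)
  have hE : MeasurableEmbedding T := T.toHomeomorph.measurableEmbedding
  have hb : 0 < (1 / 2 : ℂ).re := by norm_num
  constructor
  · have h1 := GaussianFourier.integrable_cexp_neg_mul_sq_norm_add (V := W) hb 0 0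
    have h2 : Integrable (fun v : W => Complex.exp (-(1 / 2) * ‖v‖ ^ 2 + 0 * ⟪(0 : W), v⟫))
        ((volume : Measure (ι → ℝ)).map T) := by
      rw [hm]; exact h1.smul_measure_nnreal
    have h3 := (hE.integrable_map_iff.mp h2).norm
    refine h3.congr (ae_of_all _ fun φ => ?_)
    simp only [Function.comp_apply, zero_mul, add_zero]
    have : (-(1 / 2) * (‖T φ‖ : ℂ) ^ 2) = ((-(∑ e, A φ e ^ 2) / 2 : ℝ) : ℂ) := by
      rw [← hn]; push_cast; ring
    rw [this, Complex.norm_exp, Complex.ofReal_re]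
  · refine ⟨k * (2 * Real.pi) ^ (Module.finrank ℝ W / 2 : ℝ), by positivity, fun ψ t => ?_⟩
    have h1 := GaussianFourier.integral_cexp_neg_mul_sq_norm_add (V := W) hb (Complex.I * t) (T ψ)
    have h2 := hE.integral_map (μ := volume) fun v : W =>
      Complex.exp (-(1 / 2) * ‖v‖ ^ 2 + Complex.I * t * ⟪T ψ, v⟫)
    rw [hm, integral_smul_nnreal_measure, h1] at h2
    have h3 : ∀ φ, Complex.exp (-((∑ e, A φ e ^ 2 : ℝ) : ℂ) / 2 +
        Complex.I * t * (∑ e, A ψ e * A φ e : ℝ)) =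
        Complex.exp (-(1 / 2) * ‖T φ‖ ^ 2 + Complex.I * t * ⟪T ψ, T φ⟫) := by
      intro φ
      rw [← hn, hin]; congr 1; push_cast; ring
    simp only [h3]
    rw [← h2, ← hn, NNReal.smul_def, Complex.real_smul]
    have e1 : ((Real.pi : ℂ) / (1 / 2)) = ((2 * Real.pi : ℝ) : ℂ) := by push_cast; ring
    have e2 : ((Module.finrank ℝ W : ℂ) / 2) = ((Module.finrank ℝ W / 2 : ℝ) : ℂ) := by
      push_cast; rfl
    have e3 : (Complex.I * t) ^ 2 * (‖T ψ‖ : ℂ) ^ 2 / (4 * (1 / 2)) =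
        ((-t ^ 2 * ‖T ψ‖ ^ 2 / 2 : ℝ) : ℂ) := by
      rw [mul_pow, Complex.I_sq]; push_cast; ring
    rw [e1, e2, e3, ← Complex.ofReal_cpow (by positivity), ← Complex.ofReal_exp]
    push_cast; ring

theorem dual_abs (A : (ι → ℝ) →ₗ[ℝ] (E → ℝ)) (D : (κ → ℝ) →ₗ[ℝ] (E → ℝ))
    (hA : Function.Injective A) (ho : ∀ φ ϑ, ∑ e, A φ e * D ϑ e = 0)
    (hs : ∀ y, ∃ φ ϑ, y = A φ + D ϑ) (ν : Measure ℝ) [IsFiniteMeasure ν] :
    Integrable (fun φ : ι → ℝ => ∏ e, wN ν (A φ e)) ∧ ∃ c : ℝ, 0 < c ∧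
      ∀ (ψ : ι → ℝ) (t : ℝ) (G : (E → ℝ) → ℂ),
        (∀ φ ϑ, G (A φ + D ϑ) = Complex.exp (Complex.I * t * (∑ e, A ψ e * A φ e : ℝ) -
          (∑ e, D ϑ e ^ 2 : ℝ) / 2)) →
        ∫ φ : ι → ℝ, ((∏ e, wN ν (A φ e) : ℝ) : ℂ) *
          Complex.exp (Complex.I * t * (∑ e, A ψ e * A φ e : ℝ)) =
          (c * Real.exp (-t ^ 2 * (∑ e, A ψ e ^ 2) / 2) : ℝ) *
            ∫ y, G y ∂Measure.pi fun _ : E => ν := by
  obtain ⟨hi, c, hc, hg⟩ := gauss A hA
  have hAc : Continuous A := A.continuous_of_finiteDimensional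
  let f : (ι → ℝ) × (E → ℝ) → ℝ := fun p => Real.exp (-(∑ e, (A p.1 e - p.2 e) ^ 2) / 2)
  have hfc : Continuous f := by fun_prop
  have hsq : ∀ φ φ0 ϑ, ∑ e, (A φ e - (A φ0 + D ϑ) e) ^ 2 =
      ∑ e, A (φ - φ0) e ^ 2 + ∑ e, D ϑ e ^ 2 := by
    intro φ φ0 ϑ
    have := ho (φ - φ0) ϑ
    have h2 : ∀ e, (A φ e - (A φ0 + D ϑ) e) ^ 2 =
        A (φ - φ0) e ^ 2 + D ϑ e ^ 2 - 2 * (A (φ - φ0) e * D ϑ e) := by
      intro e
      simp only [map_sub, Pi.add_apply, Pi.sub_apply]; ring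
    simp only [h2, sum_sub_distrib, sum_add_distrib, ← mul_sum, this]
    ring
  have hle : ∀ φ φ0 ϑ, f (φ, A φ0 + D ϑ) ≤ Real.exp (-(∑ e, A (φ - φ0) e ^ 2) / 2) := by
    intro φ φ0 ϑ
    simp only [f]
    rw [hsq, Real.exp_le_exp]
    have : 0 ≤ ∑ e, D ϑ e ^ 2 := sum_nonneg fun e _ => sq_nonneg _
    linarith
  have hfi : Integrable f (volume.prod (Measure.pi fun _ : E => ν)) := by
    rw [integrable_prod_iff' hfc.aestronglyMeasurable]
    have hy : ∀ y, Integrable fun φ => f (φ, y) := by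
      intro y
      obtain ⟨φ0, ϑ, rfl⟩ := hs y
      refine (hi.comp_sub_right φ0).mono' (by fun_prop) (ae_of_all _ fun φ => ?_)
      rw [Real.norm_of_nonneg (Real.exp_pos _).le]
      exact hle φ φ0 ϑ
    refine ⟨ae_of_all _ hy, ?_⟩
    refine (integrable_const (∫ φ : ι → ℝ, Real.exp (-(∑ e, A φ e ^ 2) / 2))).mono'
      hfc.norm.stronglyMeasurable.integral_prod_left'.aestronglyMeasurable
      (ae_of_all _ fun y => ?_)
    rw [Real.norm_of_nonneg (integral_nonneg fun _ => norm_nonneg _)]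
    obtain ⟨φ0, ϑ, rfl⟩ := hs y
    rw [← integral_sub_right_eq_self
      (fun φ : ι → ℝ => Real.exp (-(∑ e, A φ e ^ 2) / 2)) φ0]
    refine integral_mono (hy _).norm (hi.comp_sub_right φ0) fun φ => ?_
    beta_reduce
    rw [Real.norm_of_nonneg (Real.exp_pos _).le]
    exact hle φ φ0 ϑ
  have hw : ∀ φ, ∏ e, wN ν (A φ e) = ∫ y, f (φ, y) ∂Measure.pi fun _ : E => ν := by
    intro φ
    simp only [wN]
    rw [← integral_fintype_prod_eq_prod]
    refine integral_congr_ae (ae_of_all _ fun y => ?_)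
    simp only [f]
    rw [← Real.exp_sum, ← sum_div, sum_neg_distrib]
  refine ⟨?_, c, hc, fun ψ t G hG => ?_⟩
  · simp only [hw]
    exact hfi.integral_prod_left
  · have hn : ∀ s : ℝ, ‖Complex.exp (Complex.I * t * s)‖ = 1 := by
      intro s
      have : Complex.I * t * s = ((t * s : ℝ) : ℂ) * Complex.I := by push_cast; ring
      rw [this, Complex.norm_exp_ofReal_mul_I]
    have hF : Integrable (Function.uncurry fun (φ : ι → ℝ) (y : E → ℝ) => (f (φ, y) : ℂ) *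
        Complex.exp (Complex.I * t * (∑ e, A ψ e * A φ e : ℝ)))
        (volume.prod (Measure.pi fun _ : E => ν)) := by
      refine Integrable.mul_bdd (c := 1) hfi.ofReal (Continuous.aestronglyMeasurable (by fun_prop))
        (ae_of_all _ fun p => ?_)
      rw [hn]
    have e1 : ∀ φ, ((∏ e, wN ν (A φ e) : ℝ) : ℂ) *
        Complex.exp (Complex.I * t * (∑ e, A ψ e * A φ e : ℝ)) =
        ∫ y, (f (φ, y) : ℂ) * Complex.exp (Complex.I * t * (∑ e, A ψ e * A φ e : ℝ))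
          ∂Measure.pi fun _ : E => ν := by
      intro φ
      rw [hw, integral_mul_const, integral_complex_ofReal]
    simp only [e1]
    rw [integral_integral_swap hF, ← integral_const_mul]
    refine integral_congr_ae (ae_of_all _ fun y => ?_)
    obtain ⟨φ0, ϑ, rfl⟩ := hs y
    beta_reduce
    rw [hG, ← hg, ← integral_mul_const, ← integral_add_right_eq_self
      (fun φ : ι → ℝ => (f (φ, A φ0 + D ϑ) : ℂ) *
        Complex.exp (Complex.I * t * (∑ e, A ψ e * A φ e : ℝ))) φ0]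
    refine integral_congr_ae (ae_of_all _ fun φ => ?_)
    simp only [f]
    rw [hsq, add_sub_cancel_right, Complex.ofReal_exp, ← Complex.exp_add, ← Complex.exp_add]
    congr 1
    simp only [map_add, Pi.add_apply, mul_add, sum_add_distrib]
    push_cast; ring

end Pool.Agent.Lib.MP_9cc147_pr.Cx.Du
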