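import Pool.Agent.Lib.MP_9cc147_pr.Cx.D3

/-! Summation by parts on the box of faces and on its dual. -/

open scoped Classical
open Finset

noncomputable section
namespace Pool.Agent.Lib.MP_9cc147_pr.Cx.Du

theorem mbox {n : ℕ} {p : P} : p ∈ box n ↔ (0 ≤ p.1 ∧ p.1 < n) ∧ 0 ≤ p.2 ∧ p.2 < n := by
  simp [box]
theorem minn {n : ℕ} {p : P} : p ∈ inn n ↔ (0 < p.1 ∧ p.1 < n) ∧ 0 < p.2 ∧ p.2 < n := by
  simp [inn]
theorem msqr {n : ℕ} {p : P} : p ∈ sqr n ↔ (0 ≤ p.1 ∧ p.1 ≤ n) ∧ 0 ≤ p.2 ∧ p.2 ≤ n := by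
  simp [sqr]
theorem mring {n : ℕ} {p : P} : p ∈ ring n ↔ ((0 ≤ p.1 ∧ p.1 ≤ n) ∧ 0 ≤ p.2 ∧ p.2 ≤ n) ∧
    (p.1 = 0 ∨ p.1 = n ∨ p.2 = 0 ∨ p.2 = n) := by
  rw [ring, mem_sdiff, msqr, minn]
  omega

/-- faces with an east (north) neighbour in the box -/
def X0 (n : ℕ) : Finset P := Ico (0 : ℤ) (n - 1) ×ˢ Ico (0 : ℤ) n
def X1 (n : ℕ) : Finset P := Ico (0 : ℤ) n ×ˢ Ico (0 : ℤ) (n - 1)
theorem mX0 {n : ℕ} {p : P} : p ∈ X0 n ↔ (0 ≤ p.1 ∧ p.1 < n - 1) ∧ 0 ≤ p.2 ∧ p.2 < n := by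
  simp [X0]
theorem mX1 {n : ℕ} {p : P} : p ∈ X1 n ↔ (0 ≤ p.1 ∧ p.1 < n) ∧ 0 ≤ p.2 ∧ p.2 < n - 1 := by
  simp [X1]

theorem meds {n : ℕ} {e : P × Fin 4} :
    e ∈ eds n ↔ (e.2 = 0 ∧ e.1 ∈ X0 n) ∨ (e.2 = 1 ∧ e.1 ∈ X1 n) := by
  obtain ⟨⟨x, y⟩, d⟩ := e
  simp only [eds, hes, mem_filter, mem_product, mem_univ, and_true, mbox, mX0, mX1]
  fin_cases d <;> simp [dir] <;> omega

theorem sum_eds {M : Type} [AddCommMonoid M] (n : ℕ) (F : P × Fin 4 → M) :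
    ∑ e ∈ eds n, F e = ∑ x ∈ X0 n, F (x, 0) + ∑ x ∈ X1 n, F (x, 1) := by
  have h : eds n = (X0 n).image (fun x => (x, (0 : Fin 4))) ∪ (X1 n).image fun x => (x, 1) := by
    ext ⟨x, d⟩
    simp only [meds, mem_union, mem_image, Prod.mk.injEq]
    constructor
    · rintro (⟨rfl, h⟩ | ⟨rfl, h⟩)
      · exact .inl ⟨x, h, rfl, rfl⟩
      · exact .inr ⟨x, h, rfl, rfl⟩
    · rintro (⟨a, h, rfl, rfl⟩ | ⟨a, h, rfl, rfl⟩)
      · exact .inl ⟨rfl, h⟩
      · exact .inr ⟨rfl, h⟩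
  rw [h, sum_union, sum_image fun a _ b _ h => (Prod.mk.inj h).1,
    sum_image fun a _ b _ h => (Prod.mk.inj h).1]
  rw [disjoint_left]
  intro e h1 h2
  obtain ⟨a, _, rfl⟩ := mem_image.1 h1
  obtain ⟨b, _, hb⟩ := mem_image.1 h2
  simp at hb

theorem card_eds (n : ℕ) : (eds (n + 1)).card = n * (n + 1) + (n + 1) * n := by
  rw [card_eq_sum_ones, sum_eds]
  simp [X0, X1]

theorem card_inn (n : ℕ) : (inn (n + 1)).card = n * n := by simp [inn]

theorem shift {n : ℕ} {g : P → ℝ} (hg : ∀ p ∈ ring n, g p = 0) (X : Finset P) (v : P) (a : P → ℝ)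
    (h1 : ∀ p ∈ inn n, p - v ∈ X) (h2 : ∀ x ∈ X, x + v ∈ sqr n) :
    ∑ x ∈ X, a x * g (x + v) = ∑ p ∈ inn n, a (p - v) * g p := by
  symm
  refine sum_bij_ne_zero (fun p _ _ => p - v) (fun p hp _ => h1 p hp)
    (fun p _ _ p' _ _ h => sub_left_injective h) (fun x hx h => ⟨x + v, ?_, ?_, ?_⟩) ?_
  · by_contra hn
    exact h (by rw [hg _ (mem_sdiff.2 ⟨h2 x hx, hn⟩), mul_zero])
  · simpa using h
  · simp
  · intro p _ _
    simp

/-- the divergence on the dual lattice -/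
def rho (y : P × Fin 4 → ℝ) (p : P) : ℝ :=
  y (p - (1, 1), 0) - y (p - (1, 0), 0) + y (p - (0, 1), 1) - y (p - (1, 1), 1)

theorem dg0 (g : P → ℝ) (x : P) : dg g x 0 = g (x + (1, 1)) - g (x + (1, 0)) := rfl
theorem dg1 (g : P → ℝ) (x : P) : dg g x 1 = g (x + (0, 1)) - g (x + (1, 1)) := rfl
theorem dg2 (g : P → ℝ) (x : P) : dg g x 2 = g (x + (0, 0)) - g (x + (0, 1)) := rfl
theorem dg3 (g : P → ℝ) (x : P) : dg g x 3 = g (x + (1, 0)) - g (x + (0, 0)) := rfl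

theorem green {n : ℕ} {g : P → ℝ} (hg : ∀ p ∈ ring n, g p = 0) (y : P × Fin 4 → ℝ) :
    ∑ e ∈ eds n, y e * dg g e.1 e.2 = ∑ p ∈ inn n, rho y p * g p := by
  rw [sum_eds]
  simp only [dg0, dg1, mul_sub, sum_sub_distrib, rho, sub_mul, add_mul, sum_add_distrib]
  rw [shift hg (X0 n) (1, 1) (fun x => y (x, 0)), shift hg (X0 n) (1, 0) (fun x => y (x, 0)),
    shift hg (X1 n) (0, 1) (fun x => y (x, 1)), shift hg (X1 n) (1, 1) (fun x => y (x, 1))]
  · ring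
  all_goals
    intro p hp
    simp only [minn, msqr, mX0, mX1, Prod.fst_sub, Prod.snd_sub, Prod.fst_add, Prod.snd_add] at *
    omega

theorem rho_dg (f : P → ℝ) (p : P) : rho (fun e => dg f e.1 e.2) p = Lap f p := by
  obtain ⟨x, y⟩ := p
  show _ = 4 * f _ - ∑ d, f _
  simp only [rho, dg0, dg1, Fin.sum_univ_four, dir, Matrix.cons_val, Prod.mk_add_mk,
    Prod.mk_sub_mk]
  ring_nf

/-- the gradient on the box of faces -/
def gr (f : P → ℝ) (e : P × Fin 4) : ℝ := f e.1 - f (e.1 + dir e.2)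

theorem rho_gr (f : P → ℝ) (p : P) : rho (gr f) p = 0 := by
  obtain ⟨x, y⟩ := p
  simp only [rho, gr, dir, Matrix.cons_val, Prod.mk_add_mk, Prod.mk_sub_mk]
  ring_nf

theorem gr_dg {n : ℕ} {g : P → ℝ} (hg : ∀ p ∈ ring n, g p = 0) (f : P → ℝ) :
    ∑ e ∈ eds n, gr f e * dg g e.1 e.2 = 0 := by
  rw [green hg]
  simp [rho_gr]

theorem dg_dg {n : ℕ} {g : P → ℝ} (hg : ∀ p ∈ ring n, g p = 0) (f : P → ℝ) :
    ∑ e ∈ eds n, dg f e.1 e.2 * dg g e.1 e.2 = ∑ p ∈ inn n, Lap f p * g p := by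
  rw [green hg fun e => dg f e.1 e.2]
  simp only [rho_dg]

theorem rev_hes {n : ℕ} {e : P × Fin 4} (h : e ∈ hes n) : rev e ∈ hes n := by
  obtain ⟨⟨x, y⟩, d⟩ := e
  simp only [hes, rev, mem_filter, mem_product, mem_univ, and_true, mbox] at *
  fin_cases d <;> simp [dir] at * <;> omega

theorem rev_rev (e : P × Fin 4) : rev (rev e) = e := by
  obtain ⟨⟨x, y⟩, d⟩ := e
  fin_cases d <;> simp [rev, dir]

theorem dg_rev (g : P → ℝ) (e : P × Fin 4) : dg g (rev e).1 (rev e).2 = -dg g e.1 e.2 := by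
  obtain ⟨⟨x, y⟩, d⟩ := e
  fin_cases d <;> simp [rev, dir, dg, crn]

theorem sum_hes (n : ℕ) (H : P × Fin 4 → ℝ) :
    ∑ e ∈ hes n, H e = ∑ e ∈ eds n, (H e + H (rev e)) := by
  rw [sum_add_distrib, ← sum_filter_add_sum_filter_not (hes n) fun e => e.2 = 0 ∨ e.2 = 1]
  congr 1
  refine sum_nbij' rev rev (fun e he => ?_) (fun e he => ?_) (fun e _ => rev_rev e)
    (fun e _ => rev_rev e) fun e _ => by rw [rev_rev]
  · obtain ⟨h1, h2⟩ := mem_filter.1 he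
    refine mem_filter.2 ⟨rev_hes h1, ?_⟩
    obtain ⟨x, d⟩ := e
    fin_cases d <;> simp [rev] at *
  · obtain ⟨h1, h2⟩ := mem_filter.1 he
    refine mem_filter.2 ⟨rev_hes h1, ?_⟩
    obtain ⟨x, d⟩ := e
    fin_cases d <;> simp [rev] at *

theorem out_sum {n : ℕ} (hn : 1 ≤ n) {u : P → ℝ} (hu : ∀ p ∈ ring n, u p = uB n p)
    (H : P × Fin 4 → ℝ) :
    ∑ x ∈ box n, ∑ d, H (x, d) * dg u x d = ∑ e ∈ hes n, H e * dg u e.1 e.2 +
      (H (((n : ℤ) - 1, (n : ℤ) - 1), 1) - H ((0, 0), 2)) := by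
  rw [← sum_product' (f := fun x d => H (x, d) * dg u x d),
    ← sum_filter_add_sum_filter_not (box n ×ˢ univ) fun e => e.1 + dir e.2 ∈ box n]
  congr 1
  have key : ∀ e ∈ (box n ×ˢ (univ : Finset (Fin 4))).filter fun e => ¬ e.1 + dir e.2 ∈ box n,
      H (e.1, e.2) * dg u e.1 e.2 = (if e = (((n : ℤ) - 1, (n : ℤ) - 1), 1) then H e else 0) -
        if e = ((0, 0), 2) then H e else 0 := by
    rintro ⟨⟨x, y⟩, d⟩ he
    simp only [mem_filter, mem_product, mem_univ, and_true, mbox] at he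
    have hd : dg u (x, y) d = uB n ((x, y) + crn (d + 1)) - uB n ((x, y) + crn d) := by
      rw [dg, hu, hu] <;> rw [mring] <;> fin_cases d <;> simp [dir, crn] at * <;> omega
    rw [hd]
    fin_cases d <;> simp [dir, crn, uB] at * <;> split_ifs <;> first | omega | simp
  rw [sum_congr rfl key, sum_sub_distrib, sum_ite_eq', sum_ite_eq', if_pos, if_pos]
  all_goals
    simp [mbox, dir]
    try omega

/-- the rotated gradient of the background is the unit current between the two corners -/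
theorem gr_u {n : ℕ} (hn : 1 ≤ n) {u : P → ℝ} (hu : ∀ p ∈ ring n, u p = uB n p) (f : P → ℝ) :
    ∑ e ∈ eds n, gr f e * dg u e.1 e.2 = f (0, 0) - f ((n : ℤ) - 1, (n : ℤ) - 1) := by
  have h := out_sum hn hu fun e => f e.1
  have h0 : ∀ x, ∑ d, f x * dg u x d = 0 := by
    intro x
    rw [Fin.sum_univ_four, dg0, dg1, dg2, dg3]; ring
  simp only [h0, sum_const_zero] at h
  rw [sum_hes] at h
  have h1 : ∀ e : P × Fin 4, f e.1 * dg u e.1 e.2 + f (rev e).1 * dg u (rev e).1 (rev e).2 =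
      gr f e * dg u e.1 e.2 := by
    intro e
    rw [dg_rev, gr, rev]; ring
  simp only [h1] at h
  linarith

theorem rt_eq {n : ℕ} (hn : 1 ≤ n) (hu : ∀ p ∈ ring n, uu n p = uB n p) :
    Rt n - 1 = ∑ e ∈ eds n, dg (uu n) e.1 e.2 ^ 2 := by
  have h := out_sum hn hu fun e => dg (uu n) e.1 e.2
  rw [sum_hes] at h
  simp only [dg_rev, neg_mul_neg, ← two_mul, ← mul_sum] at h
  have h1 : dg (uu n) ((n : ℤ) - 1, (n : ℤ) - 1) 1 = 1 := by
    rw [dg1, hu, hu]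
    · simp [uB]
    all_goals simp [mring, hn]
  have h2 : dg (uu n) (0, 0) 2 = -1 := by
    rw [dg2, hu, hu]
    · simp [uB]; omega
    all_goals simp [mring, hn]
  have h3 : ∀ x, n1 (cf (uu n)) x = 1 / 2 * ∑ d, dg (uu n) x d * dg (uu n) x d := by
    intro x
    unfold n1
    congr 1
    refine sum_congr rfl fun d _ => ?_
    have : dg (cf (uu n)) x d = ((dg (uu n) x d : ℝ) : ℂ) := by simp [dg, cf]
    rw [this, Complex.norm_real, Real.norm_eq_abs, sq_abs, sq]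
  rw [h1, h2] at h
  simp only [Rt, h3, ← mul_sum, h, sq]
  ring

theorem gr_inj {n : ℕ} {f : P → ℝ} (h0 : f (0, 0) = 0) (h : ∀ e ∈ eds n, gr f e = 0) :
    ∀ x ∈ box n, f x = 0 := by
  have a : ∀ j : ℕ, j < n → f (0, j) = 0 := by
    intro j
    induction j with
    | zero => exact fun _ => h0
    | succ j ih =>
      intro hj
      have := h ((0, j), 1) (meds.2 (.inr ⟨rfl, by simp only [mX1]; omega⟩))
      rw [gr, ih (by omega)] at this
      simpa [dir] using this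
  have b : ∀ i j : ℕ, i < n → j < n → f (i, j) = 0 := by
    intro i j
    induction i with
    | zero => exact fun _ => a j
    | succ i ih =>
      intro hi hj
      have := h ((i, j), 0) (meds.2 (.inl ⟨rfl, by simp only [mX0]; omega⟩))
      rw [gr, ih (by omega) hj] at this
      simpa [dir] using this
  rintro ⟨x, y⟩ hx
  simp only [mbox] at hx
  lift x to ℕ using hx.1.1
  lift y to ℕ using hx.2.1
  exact b x y (by omega) (by omega)

theorem dg_inj {n : ℕ} {g : P → ℝ} (hg : ∀ p ∈ ring n, g p = 0)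
    (h : ∀ e ∈ eds n, dg g e.1 e.2 = 0) : ∀ p ∈ inn n, g p = 0 := by
  have a : ∀ (x : ℤ) (j : ℕ), 0 < x → x < n → j < n → g (x, j) = 0 := by
    intro x j h1 h2
    induction j with
    | zero => exact fun _ => hg _ (by simp only [mring]; omega)
    | succ j ih =>
      intro hj
      have := h ((x - 1, j), 0) (meds.2 (.inl ⟨rfl, by simp only [mX0]; omega⟩))
      simp only [dg0, Prod.mk_add_mk, sub_add_cancel, add_zero, ih (by omega), sub_zero] at this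
      exact_mod_cast this
  rintro ⟨x, y⟩ hp
  simp only [minn] at hp
  lift y to ℕ using hp.2.1.le
  exact a x y hp.1.1 hp.1.2 (by omega)

end Pool.Agent.Lib.MP_9cc147_pr.Cx.Du
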