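import Pool.Agent.Lib.MP_9cc147_pr.Cx.Z.Op

/-! Exchange of a bounded mean with the integration of the noise. -/

open scoped Classical
open Finset MeasureTheory ProbabilityTheory

noncomputable section
namespace Pool.Agent.Lib.MP_9cc147_pr.Cx.Du

theorem mext (n : ℕ) {g : Om → P → ℝ} (hg : ∀ p, Measurable fun ω => g ω p) :
    Measurable fun ω : Om => ext n (g ω) :=
  measurable_pi_lambda _ fun _ => (hg _).const_mul _

theorem zeta_m (L n j : ℕ) : Measurable (zeta L n j) := by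
  unfold zeta
  refine Finset.measurable_sum _ fun k _ => Finset.measurable_sum _ fun i hi => ?_
  exact (zop_sq k (mem_range.1 hi)).mea.comp (mext n fun p => measurable_pi_apply _)

theorem zeta_d (L j : ℕ) {n : ℕ} (hn : 1 ≤ n) (ω : Om) : Dir n (zeta L n j ω) :=
  zdir_sum fun k _ => zdir_sum fun _ hi => (zop_sq k (mem_range.1 hi)).dir (zext_dir hn _)

theorem zw_m (n : ℕ) : Measurable (zw n) :=
  (mext n fun _ => measurable_pi_apply _).const_smul (1 / 4 : ℝ)

theorem zw_d {n : ℕ} (hn : 1 ≤ n) (ω : Om) : Dir n (zw n ω) := zdir_smul (zext_dir hn _) _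

theorem zr_m (n k : ℕ) : Measurable (zr n k) :=
  (zop_pn5 k).mea.comp (mext n fun _ => by fun_prop)

theorem zr_d (k : ℕ) {n : ℕ} (hn : 1 ≤ n) (ω : Om) : Dir n (zr n k ω) :=
  (zop_pn5 k).dir (zext_dir hn _)

theorem cf_add (f g : P → ℝ) : cf (f + g) = cf f + cf g := by
  ext p; simp [cf]

instance pp_prob : IsProbabilityMeasure PP := by unfold PP; infer_instance

/-- on real fields `F` is the mean of the bounded family `G` -/
structure Fam {Y : Type} [MeasurableSpace Y] (μ : Measure Y) (F : Fld → ℂ) (G : Y → Fld → ℂ) :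
    Prop where
  mea : Measurable fun p : Y × (P → ℝ) => G p.1 (cf p.2)
  bd : ∀ y θ, ‖G y (cf θ)‖ ≤ 1
  eq : ∀ θ, F (cf θ) = ∫ y, G y (cf θ) ∂μ

variable {Y : Type} [MeasurableSpace Y] {μ : Measure Y} [IsFiniteMeasure μ] {F : Fld → ℂ}
  {G : Y → Fld → ℂ}

theorem Fam.avg (h : Fam μ F G) {ζ : Om → P → ℝ} (hζ : Measurable ζ) :
    Fam μ (fun Θ => ∫ ω, F (Θ + cf (ζ ω)) ∂PP) fun y Θ => ∫ ω, G y (Θ + cf (ζ ω)) ∂PP := by
  refine ⟨?_, fun y θ => ?_, fun θ => ?_⟩
  · simp only [← cf_add]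
    have hm : Measurable fun r : (Y × (P → ℝ)) × Om => G r.1.1 (cf (r.1.2 + ζ r.2)) :=
      h.mea.comp (f := fun r : (Y × (P → ℝ)) × Om => (r.1.1, r.1.2 + ζ r.2)) (by fun_prop)
    exact hm.stronglyMeasurable.integral_prod_right'.measurable
  · simp only [← cf_add]
    have := norm_integral_le_of_norm_le_const (μ := PP) (C := 1)
      (f := fun ω => G y (cf (θ + ζ ω))) (ae_of_all _ fun ω => h.bd _ _)
    simpa using this
  · simp only [← cf_add, h.eq]
    have hm : Measurable fun r : Om × Y => G r.2 (cf (θ + ζ r.1)) :=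
      h.mea.comp (f := fun r : Om × Y => (r.2, θ + ζ r.1)) (by fun_prop)
    exact integral_integral_swap (f := fun ω y => G y (cf (θ + ζ ω)))
      (Integrable.of_bound hm.aestronglyMeasurable 1 (ae_of_all _ fun r => h.bd _ _))

theorem Fam.ex (h : Fam μ F G) (L n j : ℕ) : Fam μ (Ex L n F j) fun y => Ex L n (G y) j := by
  induction j with
  | zero => exact h
  | succ j ih => exact ih.avg (zeta_m L n j)

theorem Fam.tot (h : Fam μ F G) (L n J : ℕ) : Fam μ (Tot L n J F) fun y => Tot L n J (G y) :=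
  (h.ex L n J).avg (zr_m n _)

theorem tot_congr (L J : ℕ) {n : ℕ} (hn : 1 ≤ n) {F F' : Fld → ℂ} {a : ℂ} {Θ Θ' : Fld}
    (h : ∀ θ, Dir n θ → F (Θ + cf θ) = a * F' (Θ' + cf θ)) :
    Tot L n J F Θ = a * Tot L n J F' Θ' := by
  have key : ∀ j θ, Dir n θ → Ex L n F j (Θ + cf θ) = a * Ex L n F' j (Θ' + cf θ) := by
    intro j
    induction j with
    | zero => exact h
    | succ j ih =>
      intro θ hθ
      simp only [Ex, add_assoc, ← cf_add]
      rw [← integral_const_mul]
      exact integral_congr_ae (ae_of_all _ fun ω => ih _ (zdir_add hθ (zeta_d L j hn ω)))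
  unfold Tot
  rw [← integral_const_mul]
  exact integral_congr_ae (ae_of_all _ fun ω => key _ _ (zr_d _ hn ω))

end Pool.Agent.Lib.MP_9cc147_pr.Cx.Du
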