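import Pool.Agent.Lib.MP_9cc147_pr.Cx.Du.Gauss
import Pool.Agent.Lib.MP_9cc147_pr.Cx.Du.Noise
import Pool.Agent.Lib.MP_9cc147_pr.Cx.Du.Grid

/-! Duality between the real valued model and the dual field. -/

open scoped Classical
open Finset MeasureTheory ProbabilityTheory

noncomputable section
namespace Pool.Agent.Lib.MP_9cc147_pr.Cx
namespace Du

def toV (n : ℕ) (p : P) : V n := (Fin.ofNat _ p.1.toNat, Fin.ofNat _ p.2.toNat)
def ofV {n : ℕ} (x : V n) : P := ((x.1.val : ℤ), (x.2.val : ℤ))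

theorem toV_ofV {n : ℕ} (x : V n) : toV n (ofV x) = x := by
  simp [toV, ofV]

theorem toV_val {n : ℕ} {p : P} (h : p ∈ box (n + 1)) :
    ((toV n p).1.val : ℤ) = p.1 ∧ ((toV n p).2.val : ℤ) = p.2 := by
  rw [mbox] at h
  simp only [toV, Fin.val_ofNat]
  rw [Nat.mod_eq_of_lt (by omega), Nat.mod_eq_of_lt (by omega)]
  omega

theorem ofV_box {n : ℕ} (x : V n) : ofV x ∈ box (n + 1) := by
  have := x.1.2
  have := x.2.2
  simp only [mbox, ofV]
  omega

abbrev Ix (n : ℕ) := {x : V n // x ≠ (0, 0)}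

theorem pin_add {n : ℕ} (φ φ' : Ix n → ℝ) (x : V n) : pin (φ + φ') x = pin φ x + pin φ' x := by
  unfold pin; split_ifs <;> simp
theorem pin_smul {n : ℕ} (a : ℝ) (φ : Ix n → ℝ) (x : V n) : pin (a • φ) x = a * pin φ x := by
  unfold pin; split_ifs <;> simp

/-- the gradient of the pinned field -/
def Am (n : ℕ) : (Ix n → ℝ) →ₗ[ℝ] (eds (n + 1) → ℝ) where
  toFun φ e := gr (fun p => pin φ (toV n p)) e.1
  map_add' φ φ' := by ext e; simp only [gr, pin_add, Pi.add_apply]; ring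
  map_smul' a φ := by
    ext e; simp only [gr, pin_smul, Pi.smul_apply, RingHom.id_apply, smul_eq_mul]; ring

def zx (n : ℕ) (ϑ : inn n → ℝ) : P → ℝ := ext n fun p => if h : p ∈ inn n then ϑ ⟨p, h⟩ else 0

/-- the rotated gradient of the dual field -/
def Dm (n : ℕ) : (inn n → ℝ) →ₗ[ℝ] (eds n → ℝ) where
  toFun ϑ e := dg (zx n ϑ) e.1.1 e.1.2
  map_add' ϑ ϑ' := by
    ext e; simp only [dg, zx, ext, Pi.add_apply]; split_ifs <;> ring
  map_smul' a ϑ := by
    ext e; simp only [dg, zx, ext, Pi.smul_apply, RingHom.id_apply, smul_eq_mul]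
    split_ifs <;> ring

theorem zx_d (n : ℕ) (ϑ : inn (n + 1) → ℝ) : Dir (n + 1) (zx (n + 1) ϑ) :=
  zext_dir (by omega) _

theorem wR_eq (w : ℝ → ℝ) (n : ℕ) (φ : Ix n → ℝ) : wR w n φ = ∏ e, w (Am n φ e) := by
  have h : ∏ e, w (Am n φ e) = ∏ e ∈ eds (n + 1), w (gr (fun p => pin φ (toV n p)) e) :=
    prod_coe_sort (eds (n + 1)) fun e => w (gr (fun p => pin φ (toV n p)) e)
  rw [h, wR]
  symm
  have hb : ∀ e ∈ eds (n + 1), e.1 ∈ box (n + 1) ∧ e.1 + dir e.2 ∈ box (n + 1) := fun e he => by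
    have := mem_filter.1 (mem_filter.1 he).1
    exact ⟨(mem_product.1 this.1).1, this.2⟩
  refine prod_nbij (fun e => (toV n e.1, toV n (e.1 + dir e.2))) (fun e he => ?_)
    (fun e he e' he' h => ?_) (fun a ha => ?_) fun e _ => rfl
  · obtain ⟨a1, a2⟩ := toV_val (hb e he).1
    obtain ⟨b1, b2⟩ := toV_val (hb e he).2
    simp only [edges, mem_filter, mem_univ, true_and]
    generalize toV n (e.1 + dir e.2) = v at b1 b2 ⊢
    rcases meds.1 he with ⟨h, _⟩ | ⟨h, _⟩ <;> rw [h] at b1 b2 <;> simp [dir] at b1 b2 <;> omega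
  · obtain ⟨a1, a2⟩ := toV_val (hb e he).1
    obtain ⟨b1, b2⟩ := toV_val (hb e he).2
    obtain ⟨a1', a2'⟩ := toV_val (hb e' he').1
    obtain ⟨b1', b2'⟩ := toV_val (hb e' he').2
    simp only [Prod.mk.injEq] at h
    rw [h.1] at a1 a2
    rw [h.2] at b1 b2
    have h1 : e.1 = e'.1 := Prod.ext (by omega) (by omega)
    refine Prod.ext h1 ?_
    rw [b1', h1] at b1
    rcases meds.1 he with ⟨k, _⟩ | ⟨k, _⟩ <;> rcases meds.1 he' with ⟨k', _⟩ | ⟨k', _⟩ <;>
      rw [k, k'] at b1 ⊢ <;> simp [dir] at b1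
  · obtain ⟨a, b⟩ := a
    have h1 := b.1.2
    have h2 := b.2.2
    simp only [edges, coe_filter, mem_univ, true_and, Set.mem_ofPred_eq] at ha
    rcases ha with ⟨k1, k2⟩ | ⟨k1, k2⟩
    · refine ⟨(ofV a, 0), meds.2 (.inl ⟨rfl, by simp only [mX0, ofV]; omega⟩), ?_⟩
      have : ofV a + dir 0 = ofV b := by simp [ofV, dir, k1, k2]
      simp only [this, toV_ofV]
    · refine ⟨(ofV a, 1), meds.2 (.inr ⟨rfl, by simp only [mX1, ofV]; omega⟩), ?_⟩
      have : ofV a + dir 1 = ofV b := by simp [ofV, dir, k1, k2]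
      simp only [this, toV_ofV]

theorem pin0 {n : ℕ} (φ : Ix n → ℝ) : pin φ (toV n (0, 0)) = 0 := by
  simp [pin, toV]

theorem am_inj (n : ℕ) : Function.Injective (Am n) := by
  rw [injective_iff_map_eq_zero]
  intro φ h
  ext x
  have := gr_inj (n := n + 1) (f := fun p => pin φ (toV n p)) (pin0 φ)
    (fun e he => congrFun h ⟨e, he⟩) _ (ofV_box x.1)
  simpa [toV_ofV, pin, x.2] using this

theorem orth (n : ℕ) (φ : Ix n → ℝ) {g : P → ℝ} (hg : Dir (n + 1) g) :
    ∑ e : eds (n + 1), Am n φ e * dg g e.1.1 e.1.2 = 0 :=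
  (sum_coe_sort (eds (n + 1)) fun e => gr (fun p => pin φ (toV n p)) e * dg g e.1 e.2).trans
    (gr_dg (fun _ hp => zdir_ring hg hp) _)

theorem pair (n : ℕ) (f : P → ℝ) {g : P → ℝ} (hg : Dir n g) :
    ∑ e : eds n, dg f e.1.1 e.1.2 * dg g e.1.1 e.1.2 = ∑ p ∈ inn n, Lap f p * g p :=
  (sum_coe_sort (eds n) fun e => dg f e.1 e.2 * dg g e.1 e.2).trans
    (dg_dg (fun _ hp => zdir_ring hg hp) _)

theorem sq_zero {E : Type} [Fintype E] {y : E → ℝ} (h : ∑ e, y e * y e = 0) : y = 0 := by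
  ext e
  exact mul_self_eq_zero.1 ((sum_eq_zero_iff_of_nonneg fun e _ => mul_self_nonneg (y e)).1 h e
    (mem_univ e))

theorem span (n : ℕ) (y : eds (n + 1) → ℝ) : ∃ φ ϑ, y = Am n φ + Dm (n + 1) ϑ := by
  have hi : Function.Injective ((Am n).coprod (Dm (n + 1))) := by
    rw [injective_iff_map_eq_zero]
    rintro ⟨φ, ϑ⟩ h
    rw [LinearMap.coprod_apply] at h
    have h1 : Dm (n + 1) ϑ = 0 := by
      refine sq_zero ?_
      have h2 : ∑ e, Am n φ e * Dm (n + 1) ϑ e = 0 := orth n φ (zx_d n ϑ)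
      have h3 : ∀ e, Am n φ e = -Dm (n + 1) ϑ e := fun e => eq_neg_of_add_eq_zero_left (congrFun h e)
      simpa [h3] using h2
    simp only [h1, add_zero] at h
    refine Prod.ext (am_inj n (h.trans (map_zero _).symm)) (funext fun p => ?_)
    have := dg_inj (fun _ hp => zdir_ring (zx_d n ϑ) hp) (fun e he => congrFun h1 ⟨e, he⟩) p.1 p.2
    rw [zx, zext_inn _ p.2, dif_pos p.2] at this
    exact this
  have hr : Module.finrank ℝ ((Ix n → ℝ) × (inn (n + 1) → ℝ)) =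
      Module.finrank ℝ (eds (n + 1) → ℝ) := by
    have h1 : Fintype.card (Ix n) = (n + 1) * (n + 1) - 1 := by
      simp [Fintype.card_subtype_compl]
    have h2 : (n + 1) * (n + 1) = n * n + 2 * n + 1 := by ring
    rw [Module.finrank_prod, Module.finrank_fintype_fun_eq_card, Module.finrank_fintype_fun_eq_card,
      Module.finrank_fintype_fun_eq_card, h1, Fintype.card_coe, Fintype.card_coe, card_eds,
      card_inn, h2, Nat.add_sub_cancel]
    ring
  obtain ⟨⟨φ, ϑ⟩, h⟩ := (LinearMap.injective_iff_surjective_of_finrank_eq_finrank hr).1 hi y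
  exact ⟨φ, ϑ, h.symm⟩

theorem fam0 (ν : Measure ℝ) [IsFiniteMeasure ν] (n : ℕ) :
    Fam (Measure.pi fun _ : eds n => ν) (fun Θ => ∏ e ∈ eds n, nuh ν (dg Θ e.1 e.2))
      fun y Θ => Complex.exp (Complex.I * ∑ e : eds n, y e * dg Θ e.1.1 e.1.2) := by
  refine ⟨?_, fun y θ => ?_, fun θ => ?_⟩
  · simp only [dg, cf]
    fun_prop
  · have : Complex.I * ∑ e : eds n, y e * dg (cf θ) e.1.1 e.1.2 =
        ((∑ e : eds n, y e * dg θ e.1.1 e.1.2 : ℝ) : ℂ) * Complex.I := by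
      simp only [dg, cf]; push_cast; ring
    rw [this, Complex.norm_exp_ofReal_mul_I]
  · rw [← prod_coe_sort (eds n) fun e => nuh ν (dg (cf θ) e.1 e.2)]
    simp only [nuh, mul_sum, Complex.exp_sum, ← mul_assoc]
    exact (integral_fintype_prod_eq_prod (fun (e : eds n) (x : ℝ) =>
      Complex.exp (Complex.I * x * dg (cf θ) e.1.1 e.1.2))).symm

theorem wN_even {ν : Measure ℝ} (h : ν.map (fun x => -x) = ν) (x : ℝ) : wN ν (-x) = wN ν x := by
  unfold wN
  conv_lhs => rw [← h]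
  rw [integral_map (by fun_prop) (by fun_prop)]
  congr 1
  ext y
  ring_nf

end Du
open Du

theorem t_dual (h_u : S_u) (h_zchar : S_zchar) : S_dual := by
  intro ν _ L J n hn hν
  obtain ⟨_, hU⟩ := h_u
  obtain ⟨hu, hl, -⟩ := (hU (n + 1) (by omega)).1
  obtain ⟨hi, c, hc, hd⟩ := dual_abs (Am n) (Dm (n + 1)) (am_inj n)
    (fun φ ϑ => orth n φ (zx_d n ϑ)) (span n) ν
  refine ⟨c, hc, fun t => ?_⟩
  obtain ⟨ψ, ϑ0, hψ⟩ := span n fun e => dg (uu (n + 1)) e.1.1 e.1.2
  have h0 : Dm (n + 1) ϑ0 = 0 := by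
    refine sq_zero ?_
    have h1 : ∑ e : eds (n + 1), dg (uu (n + 1)) e.1.1 e.1.2 * Dm (n + 1) ϑ0 e = 0 :=
      (pair (n + 1) (uu (n + 1)) (zx_d n ϑ0)).trans
        (sum_eq_zero fun p hp => by rw [hl p hp, zero_mul])
    have h2 : ∑ e, Am n ψ e * Dm (n + 1) ϑ0 e = 0 := orth n ψ (zx_d n ϑ0)
    have h3 : ∀ e : eds (n + 1), dg (uu (n + 1)) e.1.1 e.1.2 = Am n ψ e + Dm (n + 1) ϑ0 e :=
      congrFun hψ
    simpa only [h3, add_mul, sum_add_distrib, h2, zero_add] using h1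
  have hA : ∀ e, Am n ψ e = dg (uu (n + 1)) e.1.1 e.1.2 := fun e => by
    have := congrFun hψ e
    rw [h0, add_zero] at this
    exact this.symm
  have hR : ∑ e, Am n ψ e ^ 2 = Rt (n + 1) - 1 := by
    rw [rt_eq (by omega) hu, ← sum_coe_sort (eds (n + 1))]
    simp only [hA]
  have hb : ∀ φ, ∑ e, Am n ψ e * Am n φ e = -pin φ (Fin.last n, Fin.last n) := by
    intro φ
    have h1 := gr_u (n := n + 1) (by omega) hu fun p => pin φ (toV n p)
    have h2 : toV n (((n + 1 : ℕ) : ℤ) - 1, ((n + 1 : ℕ) : ℤ) - 1) = (Fin.last n, Fin.last n) := by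
      rw [← toV_ofV (Fin.last n, Fin.last n)]
      simp [ofV]
    rw [pin0, h2, zero_sub, ← sum_coe_sort (eds (n + 1))] at h1
    rw [← h1]
    exact sum_congr rfl fun e _ => by rw [hA, mul_comm]; rfl
  have hbg : bg (n + 1) t = cf (t • uu (n + 1)) := by
    ext p; simp [bg, cf]
  have hF := (((fam0 ν (n + 1)).avg (zw_m (n + 1))).tot L (n + 1) J).eq (t • uu (n + 1))
  have hG := hd ψ t (fun y => Tot L (n + 1) J (fun Θ => ∫ ω, Complex.exp (Complex.I *
    ∑ e : eds (n + 1), y e * dg (Θ + cf (zw (n + 1) ω)) e.1.1 e.1.2) ∂PP)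
      (cf (t • uu (n + 1)))) fun φ ϑ => by
    have hz := h_zchar L (n + 1) J (zx (n + 1) ϑ) 0 (by omega) (zx_d n ϑ)
    rw [tot_congr L J (by omega) (a := Complex.exp (Complex.I * t *
      (∑ e, Am n ψ e * Am n φ e : ℝ))) (Θ' := cf 0) (F' := fun Ξ => ∫ ω, Complex.exp (Complex.I *
        ∑ p ∈ inn (n + 1), Lap (zx (n + 1) ϑ) p * (Ξ p + zw (n + 1) ω p)) ∂PP), hz,
      ← Complex.exp_add, ← pair (n + 1) _ (zx_d n ϑ)]
    · congr 1
      have : ∀ e, Dm (n + 1) ϑ e ^ 2 =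
        dg (zx (n + 1) ϑ) e.1.1 e.1.2 * dg (zx (n + 1) ϑ) e.1.1 e.1.2 := fun e => sq _
      simp only [this, Pi.zero_apply, mul_zero, sum_const_zero, Complex.ofReal_zero]
      ring
    · intro θ hθ
      rw [← integral_const_mul]
      refine integral_congr_ae (ae_of_all _ fun ω => ?_)
      beta_reduce
      rw [← Complex.exp_add]
      congr 1
      have hg := zdir_add hθ (zw_d (n := n + 1) (by omega) ω)
      have k1 := orth n φ hg
      have k2 := pair (n + 1) (zx (n + 1) ϑ) hg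
      have k3 : ∑ e, Am n ψ e * Dm (n + 1) ϑ e = 0 := orth n ψ (zx_d n ϑ)
      have k4 : ∀ e : eds (n + 1), ((Am n φ + Dm (n + 1) ϑ) e : ℂ) *
          dg (cf (t • uu (n + 1)) + cf θ + cf (zw (n + 1) ω)) e.1.1 e.1.2 =
          ((t * (Am n ψ e * Am n φ e) + t * (Am n ψ e * Dm (n + 1) ϑ e) +
            Am n φ e * dg (θ + zw (n + 1) ω) e.1.1 e.1.2 + dg (zx (n + 1) ϑ) e.1.1 e.1.2 *
              dg (θ + zw (n + 1) ω) e.1.1 e.1.2 : ℝ) : ℂ) := by
        intro e
        have : dg (zx (n + 1) ϑ) e.1.1 e.1.2 = Dm (n + 1) ϑ e := rfl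
        rw [this, hA]
        simp only [dg, cf, Pi.add_apply, Pi.smul_apply, smul_eq_mul]
        push_cast; ring
      simp only [k4]
      rw [← Complex.ofReal_sum]
      simp only [sum_add_distrib, ← mul_sum, k1, k2, k3]
      simp only [cf, Pi.add_apply, Pi.zero_apply]
      push_cast; ring_nf
  rw [hbg]
  refine Eq.trans ?_ (hG.trans (by rw [hR]; exact congrArg _ hF.symm))
  simp only [hb, ← wR_eq] at hi ⊢
  have hs : ∫ φ, wR (wN ν) n φ * Real.sin (t * pin φ (Fin.last n, Fin.last n)) = 0 := by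
    have := integral_neg_eq_self
      (fun φ => wR (wN ν) n φ * Real.sin (t * pin φ (Fin.last n, Fin.last n))) volume
    have h1 : ∀ φ : Ix n → ℝ, wR (wN ν) n (-φ) * Real.sin (t * pin (-φ) (Fin.last n, Fin.last n)) =
        -(wR (wN ν) n φ * Real.sin (t * pin φ (Fin.last n, Fin.last n))) := by
      intro φ
      have h2 : pin (-φ) (Fin.last n, Fin.last n) = -pin φ (Fin.last n, Fin.last n) := by
        rw [← neg_one_smul ℝ φ, pin_smul, neg_one_mul]
      simp only [wR_eq, map_neg, Pi.neg_apply, wN_even hν, h2, mul_neg, Real.sin_neg]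
    simp only [h1, integral_neg] at this
    linarith
  have hp : Continuous fun φ : Ix n → ℝ => pin φ (Fin.last n, Fin.last n) := by
    unfold pin; split_ifs <;> fun_prop
  have i1 : Integrable fun φ => wR (wN ν) n φ * Real.cos (t * pin φ (Fin.last n, Fin.last n)) :=
    hi.mul_bdd (c := 1) (by fun_prop) (ae_of_all _ fun φ => Real.abs_cos_le_one _)
  have i2 : Integrable fun φ => wR (wN ν) n φ * Real.sin (t * pin φ (Fin.last n, Fin.last n)) :=
    hi.mul_bdd (c := 1) (by fun_prop) (ae_of_all _ fun φ => Real.abs_sin_le_one _)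
  have h3 : ∀ φ : Ix n → ℝ, (wR (wN ν) n φ : ℂ) *
      Complex.exp (Complex.I * t * (-pin φ (Fin.last n, Fin.last n) : ℝ)) =
      (wR (wN ν) n φ * Real.cos (t * pin φ (Fin.last n, Fin.last n)) : ℝ) -
        (wR (wN ν) n φ * Real.sin (t * pin φ (Fin.last n, Fin.last n)) : ℝ) * Complex.I := by
    intro φ
    have : Complex.I * t * (-pin φ (Fin.last n, Fin.last n) : ℝ) =
        -(t * pin φ (Fin.last n, Fin.last n)) * Complex.I := by push_cast; ring
    rw [this, Complex.exp_mul_I, Complex.cos_neg, Complex.sin_neg]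
    push_cast; ring
  simp only [h3]
  rw [integral_sub i1.ofReal (i2.ofReal.mul_const _), integral_mul_const, integral_complex_ofReal,
    integral_complex_ofReal, hs]
  simp

end Pool.Agent.Lib.MP_9cc147_pr.Cx
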